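import Pool.Agent.H901R2.IndProd

/-!
# The product theorem for `Ind` when the product is strongly paracompact

If `X × Y` is normal (Hausdorff) and strongly paracompact and both `X` and `Y` satisfy the finite
sum theorem for `Ind`, then `Ind (X × Y) ≤ Ind X + Ind Y`.

The definitions `IndLT`, `Ind`, `FiniteSumThm` and `StronglyParacompact` are in
`Pool.Agent.H901R2.IndProd`.
-/

namespace Pool.Agent.Results.MP_bd525c_gt.StronglyParacompact

open Set Topology Pool.Agent.H901R2.IndProd

universe u v

theorem regularSpace_left {X : Type u} {Y : Type v} [TopologicalSpace X] [TopologicalSpace Y]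
    [T2Space (X × Y)] [NormalSpace (X × Y)] [Nonempty Y] : RegularSpace X := by
  obtain ⟨y⟩ := ‹Nonempty Y›
  have : T4Space (X × Y) := {}
  exact (isEmbedding_prodMkLeft y : IsEmbedding fun x : X => (x, y)).isInducing.regularSpace

theorem regularSpace_right {X : Type u} {Y : Type v} [TopologicalSpace X] [TopologicalSpace Y]
    [T2Space (X × Y)] [NormalSpace (X × Y)] [Nonempty X] : RegularSpace Y := by
  obtain ⟨x⟩ := ‹Nonempty X›
  have : T4Space (X × Y) := {}
  exact (isEmbedding_prodMkRight x : IsEmbedding fun y : Y => (x, y)).isInducing.regularSpace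

theorem neg_one_le_ind (X : Type u) [TopologicalSpace X] :
    ((-1 : ℤ) : WithTop ℤ) ≤ Ind X := by
  rcases ind_cases X with h | ⟨k, h, _⟩
  · rw [h]; exact le_top
  · rw [h, WithTop.coe_le_coe]
    omega

theorem zero_le_ind (X : Type u) [TopologicalSpace X] [hX : Nonempty X] :
    ((0 : ℤ) : WithTop ℤ) ≤ Ind X := by
  rcases ind_cases X with h | ⟨k, h, hk⟩
  · rw [h]; exact le_top
  · rw [h, WithTop.coe_le_coe]
    cases k with
    | zero => exact absurd hX (not_nonempty_iff.2 hk)
    | succ k =>
      push_cast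
      omega

/-- Let `X` and `Y` be topological spaces, at least one of them nonempty, whose product is normal
and Hausdorff and strongly paracompact, and which both satisfy the finite sum theorem for `Ind`.
Then `Ind (X × Y) ≤ Ind X + Ind Y`. -/
theorem result (X : Type u) (Y : Type v) [TopologicalSpace X] [TopologicalSpace Y]
    (hne : Nonempty X ∨ Nonempty Y)
    (hT2 : T2Space (X × Y)) (hnorm : NormalSpace (X × Y))
    (hX : FiniteSumThm X) (hY : FiniteSumThm Y) (hXY : StronglyParacompact (X × Y)) :
    Ind (X × Y) ≤ Ind X + Ind Y := by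
  rcases isEmpty_or_nonempty X with hXe | hXn
  · have hYn : Nonempty Y := hne.resolve_left (not_nonempty_iff.2 hXe)
    rw [(ind_eq_neg_one_iff (X × Y)).2 inferInstance, (ind_eq_neg_one_iff X).2 hXe]
    calc ((-1 : ℤ) : WithTop ℤ) = ((-1 : ℤ) : WithTop ℤ) + ((0 : ℤ) : WithTop ℤ) := by simp
      _ ≤ _ := by gcongr; exact zero_le_ind Y
  rcases isEmpty_or_nonempty Y with hYe | hYn
  · rw [(ind_eq_neg_one_iff (X × Y)).2 inferInstance, (ind_eq_neg_one_iff Y).2 hYe]
    calc ((-1 : ℤ) : WithTop ℤ) = ((0 : ℤ) : WithTop ℤ) + ((-1 : ℤ) : WithTop ℤ) := by simp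
      _ ≤ _ := by gcongr; exact zero_le_ind X
  have hr1 : RegularSpace X := regularSpace_left (Y := Y)
  have hr2 : RegularSpace Y := regularSpace_right (X := X)
  rcases ind_cases X with h | ⟨k, hk, hkX⟩
  · rw [h, top_add]; exact le_top
  rcases ind_cases Y with h | ⟨l, hl, hlY⟩
  · rw [h, add_top]; exact le_top
  have hk1 : 1 ≤ k := by
    cases k with
    | zero => exact absurd hXn (not_nonempty_iff.2 hkX)
    | succ k => omega
  have hl1 : 1 ≤ l := by
    cases l with
    | zero => exact absurd hYn (not_nonempty_iff.2 hlY)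
    | succ k => omega
  have hmain := (ind_lt_iff _ _).2 (indLT_prod hX hY hXY hkX hlY)
  rw [hk, hl, ← WithTop.coe_add]
  obtain ⟨n, hn⟩ := WithTop.ne_top_iff_exists.1 hmain.ne_top
  rw [← hn, WithTop.coe_lt_coe] at hmain
  rw [← hn, WithTop.coe_le_coe]
  omega

end Pool.Agent.Results.MP_bd525c_gt.StronglyParacompact
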